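import Mathlib
import Pool.Agent.H46.VT.Final

/-!
# MP_36d07e_lc: a properly very tardy set which is not automorphic to any complete set
-/

namespace Pool.Agent.Results.MP_36d07e_lc.ProperlyVeryTardyOrbit

open Nat.Partrec (Code)
open Nat.Partrec.Code Encodable Denumerable

/-- The set `A` of natural numbers is computably enumerable. -/
def CE (A : Set ℕ) : Prop := REPred (fun x => x ∈ A)

/-- The c.e. set `W c` with index `c`: the domain of the partial computable function with
code `c`. -/
def W (c : Code) : Set ℕ := {x | (eval c x).Dom}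

/-- The (finite) stage `s` approximation of `W c`: the numbers `x` for which the computation of
the code `c` on `x` stops within the bound `s`. -/
def Wst (c : Code) (s : ℕ) : Set ℕ := {x | (evaln s c x).isSome = true}

/-- The set with the `n`-c.e. presentation `l = [X1, ..., Xn]`:
`(X1 - X2) ∪ (X3 - X4) ∪ ...`, ending with `∪ Xn` if `n` is odd. -/
def presSet : List Code → Set ℕ
  | [] => ∅
  | [c] => W c
  | c :: d :: l => (W c \ W d) ∪ presSet l

/-- The stage `s` approximation of the set with the `n`-c.e. presentation `l`: the same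
expression in the stage `s` enumerations. -/
def presSt : List Code → ℕ → Set ℕ
  | [], _ => ∅
  | [c], s => Wst c s
  | c :: d :: l, s => (Wst c s \ Wst d s) ∪ presSt l s

/-- `E` is an enumeration of `A`: a computable nondecreasing sequence of finite sets (given as
lists) with union `A`. -/
def IsEnum (A : Set ℕ) (E : ℕ → List ℕ) : Prop :=
  Computable E ∧ (∀ s t x, s ≤ t → x ∈ E s → x ∈ E t) ∧ ∀ x, x ∈ A ↔ ∃ s, x ∈ E s

/-- `A` is almost prompt (with respect to some enumeration). -/
def AlmostPrompt (A : Set ℕ) : Prop :=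
  ∃ E : ℕ → List ℕ, IsEnum A E ∧ ∃ p : ℕ → ℕ, Computable p ∧ Monotone p ∧
    ∀ l : List Code, l ≠ [] → presSet l = Aᶜ → ∃ x s, x ∈ presSt l s ∧ x ∈ E (p s)

/-- `A` is very tardy: c.e. and not almost prompt (with respect to any enumeration). -/
def VeryTardy (A : Set ℕ) : Prop := CE A ∧ ¬ AlmostPrompt A

/-- `A` is `n`-tardy (with respect to some enumeration). -/
def Tardy (n : ℕ) (A : Set ℕ) : Prop :=
  ∃ E : ℕ → List ℕ, IsEnum A E ∧ ∀ p : ℕ → ℕ, Computable p → Monotone p →
    ∃ l : List Code, l.length = n ∧ presSet l = Aᶜ ∧ ∀ x s, x ∈ presSt l s → x ∉ E (p s)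

/-- `A` is properly very tardy: very tardy and not `n`-tardy for any `n`. -/
def ProperlyVeryTardy (A : Set ℕ) : Prop := VeryTardy A ∧ ∀ n, ¬ Tardy n A

/-- The lattice of c.e. sets ordered by inclusion. -/
abbrev CESet : Type := {A : Set ℕ // CE A}

open Classical in
/-- The characteristic function of `A`. -/
noncomputable def chi (A : Set ℕ) : ℕ →. ℕ := fun n => Part.some (if n ∈ A then 1 else 0)

/-- The halting set. -/
def K : Set ℕ := {n | (eval (ofNat Code n) n).Dom}

/-- `A` is complete: Turing equivalent to the halting set. -/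
def Complete (A : Set ℕ) : Prop := TuringEquivalent (chi A) (chi K)

theorem W_eq (c : Code) : VT.W c = W c := by
  ext x
  exact Pool.Agent.H46.VT.mem_W_iff

theorem presSet_eq : ∀ l : List Code, VT.presSet l = presSet l
  | [] => rfl
  | [c] => by simp only [VT.presSet, presSet, W_eq]
  | c :: d :: l => by simp only [VT.presSet, presSet, W_eq, presSet_eq l]

theorem presSt_iff : ∀ (l : List Code) (s x : ℕ), VT.presSt l s x ↔ x ∈ presSt l s
  | [], _, _ => by simp [VT.presSt, presSt]
  | [c], s, x => by simp only [VT.presSt, presSt, VT.Wst, Wst]; exact Iff.rfl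
  | c :: d :: l, s, x => by
    simp only [VT.presSt, presSt, VT.Wst, Wst, presSt_iff l s x]
    exact Iff.rfl

theorem isEnum_iff (A : Set ℕ) (E : ℕ → List ℕ) : VT.IsEnum A E ↔ IsEnum A E :=
  ⟨fun h => ⟨h.1, h.2, h.3⟩, fun h => ⟨h.1, h.2.1, h.2.2⟩⟩

theorem almostPrompt_iff (A : Set ℕ) : VT.AlmostPrompt A ↔ AlmostPrompt A := by
  unfold VT.AlmostPrompt AlmostPrompt
  simp only [isEnum_iff, presSet_eq, presSt_iff]

theorem tardy_iff (n : ℕ) (A : Set ℕ) : VT.Tardy n A ↔ Tardy n A := by
  unfold VT.Tardy Tardy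
  simp only [isEnum_iff, presSet_eq, presSt_iff]

theorem pvt_iff (A : Set ℕ) : VT.ProperlyVeryTardy A ↔ ProperlyVeryTardy A := by
  unfold VT.ProperlyVeryTardy ProperlyVeryTardy VT.VeryTardy VeryTardy
  simp only [almostPrompt_iff, tardy_iff]
  rfl

/-- There is a properly very tardy c.e. set which is not automorphic to any complete set. -/
theorem result :
    ∃ A : CESet, ProperlyVeryTardy A.1 ∧ ∀ Φ : CESet ≃o CESet, ¬ Complete (Φ A).1 := by
  obtain ⟨A, h1, h2⟩ := Pool.Agent.H46.VT.final
  exact ⟨A, (pvt_iff _).1 h1, h2⟩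

end Pool.Agent.Results.MP_36d07e_lc.ProperlyVeryTardyOrbit
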